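import Mathlib

set_option autoImplicit false

namespace Pool.Agent.H.MP_bd6a20_al

open Set

def Germ (f : ℝ ≃o ℝ) (m : ℤ) : Prop :=
  ∃ b < 1, ∀ x, b ≤ x → x ≤ 1 → f x = 1 - 2 ^ m * (1 - x)

theorem Germ.one {f : ℝ ≃o ℝ} {m : ℤ} (h : Germ f m) : f 1 = 1 := by
  obtain ⟨b, hb, h⟩ := h
  simpa using h 1 hb.le le_rfl

theorem Germ.mul {f g : ℝ ≃o ℝ} {m n : ℤ} (hf : Germ f m) (hg : Germ g n) : Germ (f * g) (m + n) := by
  have g1 := hg.one
  obtain ⟨a, ha, hf⟩ := hf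
  obtain ⟨b, hb, hg⟩ := hg
  refine ⟨max b (g.symm a), max_lt hb (g.symm_apply_lt.2 (g1.symm ▸ ha)), fun x h1 h2 => ?_⟩
  change f (g x) = _
  rw [hf _ (g.symm_apply_le.1 (le_of_max_le_right h1)) (g1 ▸ g.monotone h2),
    hg x (le_of_max_le_left h1) h2, zpow_add₀ two_ne_zero]
  ring

theorem Germ.inv {f : ℝ ≃o ℝ} {m : ℤ} (hf : Germ f m) : Germ f⁻¹ (-m) := by
  have f1 := hf.one
  obtain ⟨a, ha, hf⟩ := hf
  refine ⟨f a, f1 ▸ f.strictMono ha, fun x h1 h2 => ?_⟩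
  have := hf (f.symm x) (f.le_symm_apply.2 h1) (f.symm_apply_le.2 (f1.symm ▸ h2))
  rw [f.apply_symm_apply] at this
  change f.symm x = _
  rw [show 1 - x = 2 ^ m * (1 - f.symm x) by linarith, ← mul_assoc, ← zpow_add₀ two_ne_zero]
  simp

theorem germ_one : Germ 1 0 := ⟨0, one_pos, fun x _ _ => by simp⟩

theorem Germ.zpow {f : ℝ ≃o ℝ} (hf : Germ f 1) (i : ℤ) : Germ (f ^ i) i := by
  induction i using Int.induction_on with
  | zero => simpa using germ_one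
  | succ i ih => simpa [zpow_add_one] using ih.mul hf
  | pred i ih => rw [zpow_sub_one, sub_eq_add_neg]; exact ih.mul hf.inv

def flip : (ℝ ≃o ℝ) →* (ℝ ≃o ℝ) where
  toFun f := ⟨⟨fun x => 1 - f (1 - x), fun x => 1 - f.symm (1 - x), fun x => by simp,
    fun x => by simp⟩, fun {a b} => by
      change 1 - f (1 - a) ≤ 1 - f (1 - b) ↔ a ≤ b
      rw [sub_le_sub_iff_left, f.le_iff_le, sub_le_sub_iff_left]⟩
  map_one' := by ext x; simp
  map_mul' f g := by ext x; simp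

@[simp] theorem flip_apply (f : ℝ ≃o ℝ) (x : ℝ) : flip f x = 1 - f (1 - x) := rfl

variable {G : Type} [Group G]

structure Hyp (ρ : G →* (ℝ ≃o ℝ)) : Prop where
  one : ∀ g x, 1 ≤ x → ρ g x = x
  germ : ∀ g, ∃ m, Germ (ρ g) m
  bump : ∀ p q : ℝ, 0 ≤ p → p < q → q ≤ 1 → ∃ s r δ, p < r ∧ r < q ∧ 0 < δ ∧
    ∀ x, ρ s x = min x (max ((x + r) / 2) (max (x - δ) (2 * x - 1)))

variable {ρ : G →* (ℝ ≃o ℝ)}

theorem mul_app (a b : G) (x : ℝ) : ρ (a * b) x = ρ a (ρ b x) := by simp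
theorem inv_app (a : G) (x : ℝ) : ρ a (ρ a⁻¹ x) = x := by simp
theorem inv_app' (a : G) (x : ℝ) : ρ a⁻¹ (ρ a x) = x := by simp

def Fix (ρ : G →* (ℝ ≃o ℝ)) (S : Set ℝ) : Subgroup G where
  carrier := {g | ∀ x ∈ S, ρ g x = x}
  one_mem' := fun x _ => by simp
  mul_mem' := fun ha hb x hx => by rw [mul_app, hb x hx, ha x hx]
  inv_mem' := fun {a} ha x hx => (ρ a).injective (by rw [inv_app, ha x hx])

theorem Hyp.bump' (h : Hyp ρ) (p q : ℝ) (h0 : 0 ≤ p) (hpq : p < q) (h1 : q ≤ 1) :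
    ∃ s r, r < q ∧ s ∈ Fix ρ (Iic p) ∧ (∀ x, ρ s x ≤ x) ∧ Germ (ρ s) 1 ∧
      ∀ k t, r < k → t < 1 → ∃ η > 0, ∀ x, k ≤ x → x ≤ t → ρ s x ≤ x - η := by
  obtain ⟨s, r, δ, h2, h3, h4, hs⟩ := h.bump p q h0 hpq h1
  refine ⟨s, r, h3, fun x hx => ?_, fun x => hs x ▸ min_le_left _ _,
    ⟨max (1 - δ) ((r + 2) / 3), max_lt (by linarith) (by linarith), fun x h5 h6 => ?_⟩,
    fun k t h5 h6 => ⟨min ((k - r) / 2) (min δ (1 - t)), lt_min (by linarith) (lt_min h4 (by linarith)),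
      fun x h7 h8 => ?_⟩⟩
  · rw [hs, min_eq_left (le_max_of_le_left (by linarith [mem_Iic.1 hx]))]
  · have := le_of_max_le_left h5
    have := le_of_max_le_right h5
    rw [hs, max_eq_right (a := x - δ) (by linarith), max_eq_right (by linarith),
      min_eq_right (by linarith)]
    ring
  · have := min_le_left ((k - r) / 2) (min δ (1 - t))
    have := (min_le_right ((k - r) / 2) _).trans (min_le_left δ (1 - t))
    have := (min_le_right ((k - r) / 2) _).trans (min_le_right δ (1 - t))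
    rw [hs]
    exact min_le_of_right_le (max_le (by linarith) (max_le (by linarith) (by linarith)))

theorem pow_le {s : G} (hs : ∀ x, ρ s x ≤ x) (n : ℕ) (x : ℝ) : ρ (s ^ n) x ≤ x := by
  induction n with
  | zero => simp
  | succ n ih => rw [pow_succ', mul_app]; exact (hs _).trans ih

theorem le_pow {s : G} (hs : ∀ x, x ≤ ρ s x) (n : ℕ) (x : ℝ) : x ≤ ρ (s ^ n) x := by
  induction n with
  | zero => simp
  | succ n ih => rw [pow_succ', mul_app]; exact ih.trans (hs _)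

theorem Hyp.push (h : Hyp ρ) (p k t : ℝ) (h0 : 0 ≤ p) (hpk : p < k) (h1 : k ≤ 1) (ht : t < 1) :
    ∃ g ∈ Fix ρ (Iic p), (∀ x, ρ g x ≤ x) ∧ ρ g t < k := by
  obtain ⟨s, r, h2, h3, h4, -, h5⟩ := h.bump' p k h0 hpk h1
  obtain ⟨η, hη, h6⟩ := h5 ((r + k) / 2) t (by linarith) ht
  have key : ∀ n : ℕ, ρ (s ^ n) t ≤ max ((r + k) / 2) (t - n * η) := by
    intro n
    induction n with
    | zero => simp
    | succ n ih =>
      rw [pow_succ', mul_app]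
      rcases le_total ((r + k) / 2) (ρ (s ^ n) t) with h7 | h7
      · have := h6 _ h7 (pow_le h4 n t)
        rcases le_max_iff.1 ih with h8 | h8
        · exact le_max_of_le_left (by linarith)
        · exact le_max_of_le_right (by push_cast; linarith)
      · exact le_max_of_le_left ((h4 _).trans h7)
  obtain ⟨n, hn⟩ := exists_nat_gt ((t - k) / η)
  rw [div_lt_iff₀ hη] at hn
  exact ⟨s ^ n, pow_mem h3 n, pow_le h4 n, (key n).trans_lt (max_lt (by linarith) (by linarith))⟩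

theorem Hyp.er (h : Hyp ρ) {s : G} (hs : Germ (ρ s) 1) (g : G) :
    ∃ i : ℤ, ∃ b < 1, s ^ i * g ∈ Fix ρ (Ici b) := by
  obtain ⟨m, hm⟩ := h.germ g
  obtain ⟨b, hb, h1⟩ := (hs.zpow (-m)).mul hm
  refine ⟨-m, b, hb, fun x hx => ?_⟩
  rcases le_total x 1 with h2 | h2
  · rw [map_mul, map_zpow, h1 x hx h2]
    simp
  · exact h.one _ _ h2

theorem Hyp.cut (h : Hyp ρ) (u : G) (j k : ℝ) (h0 : 0 < k) (h1 : k ≤ 1) (hj : j < k)
    (hu : ρ u j < k) : ∃ w ∈ Fix ρ (Ici k), ∀ x ≤ j, ρ w x = ρ u x := by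
  have hp : max 0 (max j (ρ u j)) < k := max_lt h0 (max_lt hj hu)
  obtain ⟨s, r, -, h3, -, h4, -⟩ := h.bump' _ k (le_max_left _ _) hp h1
  obtain ⟨i, b, hb, h5⟩ := h.er h4 u
  obtain ⟨g, h6, -, h7⟩ := h.push _ k b (le_max_left _ _) hp h1 hb
  refine ⟨g * (s ^ i * u) * g⁻¹, fun x hx => ?_, fun x hx => ?_⟩
  · rw [mul_app, mul_app, h5, inv_app]
    exact (ρ g).le_iff_le.1 (by rw [inv_app]; exact h7.le.trans hx)
  · have : ρ u x ∈ Iic (max 0 (max j (ρ u j))) :=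
      le_max_of_le_right (le_max_of_le_right ((ρ u).monotone hx))
    rw [mul_app, mul_app, mul_app, inv_mem h6 x (le_max_of_le_right (le_max_of_le_left hx)),
      zpow_mem h3 i _ this, h6 _ this]

theorem Hyp.zero (h : Hyp (flip.comp ρ)) (g : G) (x : ℝ) (hx : x ≤ 0) : ρ g x = x := by
  have := h.one g (1 - x) (by linarith)
  simp at this
  linarith

theorem fix_flip {g : G} {S T : Set ℝ} (h : g ∈ Fix (flip.comp ρ) S) (hT : ∀ x ∈ T, 1 - x ∈ S) :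
    g ∈ Fix ρ T := fun x hx => by simpa using h _ (hT x hx)

theorem Hyp.pushL (h : Hyp (flip.comp ρ)) (p k t : ℝ) (h0 : p ≤ 1) (hpk : k < p) (h1 : 0 ≤ k)
    (ht : 0 < t) : ∃ g ∈ Fix ρ (Ici p), (∀ x, x ≤ ρ g x) ∧ k < ρ g t := by
  obtain ⟨g, h2, h3, h4⟩ := h.push (1 - p) (1 - k) (1 - t) (by linarith) (by linarith) (by linarith)
    (by linarith)
  refine ⟨g, fix_flip h2 fun x hx => mem_Iic.2 (sub_le_sub_left (mem_Ici.1 hx) 1), fun x => ?_,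
    by simpa using h4⟩
  have := h3 (1 - x)
  simp only [MonoidHom.comp_apply, flip_apply, sub_sub_cancel] at this
  linarith

theorem Hyp.cutL (h : Hyp (flip.comp ρ)) (u : G) (j k : ℝ) (h0 : k < 1) (h1 : 0 ≤ k) (hj : k < j)
    (hu : k < ρ u j) : ∃ w ∈ Fix ρ (Iic k), ∀ x, j ≤ x → ρ w x = ρ u x := by
  obtain ⟨w, h2, h3⟩ := h.cut u (1 - j) (1 - k) (by linarith) (by linarith) (by linarith)
    (by simpa using hu)
  exact ⟨w, fix_flip h2 fun x hx => mem_Ici.2 (sub_le_sub_left (mem_Iic.1 hx) 1),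
    fun x hx => by simpa using h3 (1 - x) (by linarith)⟩

def Cs (ρ : G →* (ℝ ≃o ℝ)) : Subgroup G where
  carrier := {g | ∃ a b, 0 < a ∧ a ≤ b ∧ b < 1 ∧ g ∈ Fix ρ (Iic a ∪ Ici b)}
  one_mem' := ⟨1 / 2, 1 / 2, by norm_num, le_rfl, by norm_num, one_mem _⟩
  mul_mem' := by
    rintro g h ⟨a, b, h1, h2, h3, h4⟩ ⟨c, d, h5, -, h6, h7⟩
    refine ⟨min a c, max b d, lt_min h1 h5, min_le_of_left_le (le_max_of_le_left h2), max_lt h3 h6,
      mul_mem (fun x hx => h4 x ?_) fun x hx => h7 x ?_⟩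
    · exact union_subset_union (Iic_subset_Iic.2 (min_le_left _ _))
        (Ici_subset_Ici.2 (le_max_left _ _)) hx
    · exact union_subset_union (Iic_subset_Iic.2 (min_le_right _ _))
        (Ici_subset_Ici.2 (le_max_right _ _)) hx
  inv_mem' := fun ⟨a, b, h1, h2, h3, h4⟩ => ⟨a, b, h1, h2, h3, inv_mem h4⟩

theorem conj_fix {g : G} {a b : ℝ} (h : g ∈ Fix ρ (Iic a ∪ Ici b)) (c : G) :
    c * g * c⁻¹ ∈ Fix ρ (Iic (ρ c a) ∪ Ici (ρ c b)) := by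
  intro x hx
  rw [mul_app, mul_app, h, inv_app]
  exact hx.imp (fun h => (ρ c).le_iff_le.1 (by rwa [inv_app])) fun h =>
    (ρ c).le_iff_le.1 (by rwa [inv_app])

section
variable (hi : Function.Injective ρ) (h1 : Hyp ρ) (h0 : Hyp (flip.comp ρ))
include hi

theorem comm {a b : G} (h : ∀ x, ρ a x = x ∨ ρ b x = x) : Commute a b := by
  have := Equiv.Perm.Disjoint.commute (f := (ρ a).toEquiv) (g := (ρ b).toEquiv) h
  refine hi (RelIso.ext fun x => ?_)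
  rw [mul_app, mul_app]
  exact congrArg (fun e : Equiv.Perm ℝ => e x) this

theorem agree {a u v : G} {j k : ℝ} (ha : a ∈ Fix ρ (Iic j ∪ Ici k))
    (h : ∀ x, j ≤ x → x ≤ k → ρ u x = ρ v x) : u * a * u⁻¹ = v * a * v⁻¹ := by
  have := comm hi (a := v⁻¹ * u) (b := a) fun x => by
    by_cases hx : j ≤ x ∧ x ≤ k
    · exact Or.inl (by rw [mul_app, h x hx.1 hx.2, inv_app'])
    · exact Or.inr (ha x ((not_and_or.1 hx).imp le_of_not_ge le_of_not_ge))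
  calc u * a * u⁻¹ = v * (v⁻¹ * u * a) * u⁻¹ := by group
    _ = v * a * v⁻¹ := by rw [this.eq]; group

include h1 h0

theorem up {E : Subgroup G} (hE : E ≠ ⊥) : ∃ a ∈ E, ∃ y, 0 < y ∧ y < ρ a y ∧ ρ a y < 1 := by
  obtain ⟨a, ha, y, hy⟩ : ∃ a ∈ E, ∃ y, y < ρ a y := by
    obtain ⟨⟨a, ha⟩, h⟩ := Subgroup.ne_bot_iff_exists_ne_one.1 hE
    obtain ⟨y, hy⟩ : ∃ y, ρ a y ≠ y := not_forall.1 fun e =>
      h (Subtype.ext (hi (RelIso.ext fun x => by simpa using e x)))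
    rcases hy.lt_or_gt with h | h
    · exact ⟨a⁻¹, inv_mem ha, ρ a y, by rwa [inv_app']⟩
    · exact ⟨a, ha, y, h⟩
  refine ⟨a, ha, y, lt_of_not_ge fun h => hy.ne' (h0.zero a y h), hy, lt_of_not_ge fun h => ?_⟩
  exact hy.ne' ((ρ a).injective (h1.one a _ h))

omit hi h1 in
theorem pos (g : G) {x : ℝ} (hx : 0 < x) : 0 < ρ g x := h0.zero g 0 le_rfl ▸ (ρ g).strictMono hx

omit hi h0 in
theorem lt1 (g : G) {x : ℝ} (hx : x < 1) : ρ g x < 1 := h1.one g 1 le_rfl ▸ (ρ g).strictMono hx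

variable {D : Subgroup G} (hD : ∀ a ∈ D, ∀ γ : G, ∃ n : ℕ, 1 ≤ n ∧ γ ^ n * a * (γ ^ n)⁻¹ ∈ D)
  (hb : D ≠ ⊥)
include hD hb

theorem nofix (x : ℝ) (hx0 : 0 < x) (hx1 : x < 1) : ∃ g ∈ D, ρ g x ≠ x := by
  obtain ⟨a, ha, y, y0, y1, y2⟩ := up hi h1 h0 hb
  obtain ⟨γ, hγ⟩ : ∃ γ : G, ∀ n : ℕ, y ≤ ρ (γ ^ (n + 1)) x ∧ ρ (γ ^ (n + 1)) x < ρ a y := by
    rcases le_or_gt y x with h | h
    · obtain ⟨g, g1, g2, g3⟩ := h1.push y (ρ a y) x y0.le y1 y2.le hx1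
      refine ⟨g, fun n => ⟨?_, ?_⟩⟩
      · exact (pow_mem g1 (n + 1) y self_mem_Iic).ge.trans ((ρ _).monotone h)
      · rw [pow_succ, mul_app]
        exact (pow_le g2 n _).trans_lt g3
    · obtain ⟨g, g1, g2, g3⟩ := h0.pushL ((y + ρ a y) / 2) y x (by linarith) (by linarith) y0.le hx0
      refine ⟨g, fun n => ⟨?_, ?_⟩⟩
      · rw [pow_succ, mul_app]
        exact g3.le.trans (le_pow g2 n _)
      · have := (ρ (g ^ (n + 1))).monotone (show x ≤ (y + ρ a y) / 2 by linarith)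
        rw [pow_mem g1 (n + 1) _ self_mem_Ici] at this
        linarith
  obtain ⟨n, hn, h⟩ := hD a ha γ⁻¹
  obtain ⟨n, rfl⟩ : ∃ m, n = m + 1 := ⟨n - 1, by omega⟩
  refine ⟨_, h, fun e => ?_⟩
  rw [inv_pow, inv_inv, mul_app, mul_app] at e
  have e' := congrArg (ρ (γ ^ (n + 1))) e
  rw [inv_app] at e'
  have := (ρ a).monotone (hγ n).1
  linarith [(hγ n).2]

theorem far (k l : ℝ) (hk : 0 < k) (hl : l < 1) : ∃ g ∈ D, l < ρ g k := by
  by_contra hc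
  push Not at hc
  set S : Set ℝ := {z | ∃ g ∈ D, ρ g k = z}
  have hk' : k ∈ S := ⟨1, one_mem _, by simp⟩
  have hS : l ∈ upperBounds S := by
    rintro _ ⟨g, hg, rfl⟩
    exact hc g hg
  obtain ⟨g, hg, h⟩ := nofix hi h1 h0 hD hb (sSup S) (hk.trans_le (le_csSup ⟨l, hS⟩ hk'))
    ((csSup_le ⟨k, hk'⟩ hS).trans_lt hl)
  refine h ?_
  rw [(ρ g).map_csSup' ⟨k, hk'⟩ ⟨l, hS⟩]
  congr 1
  refine Subset.antisymm ?_ ?_
  · rintro _ ⟨_, ⟨f, hf, rfl⟩, rfl⟩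
    exact ⟨g * f, mul_mem hg hf, mul_app _ _ _⟩
  · rintro _ ⟨f, hf, rfl⟩
    exact ⟨_, ⟨g⁻¹ * f, mul_mem (inv_mem hg) hf, rfl⟩, by rw [mul_app, inv_app]⟩

theorem right {a : G} (ha : a ∈ D) {j k : ℝ} (j0 : 0 < j) (jk : j ≤ k) (k1 : k < 1)
    (hf : a ∈ Fix ρ (Iic j ∪ Ici k)) (c : G) (hc : k < ρ c j) : c * a * c⁻¹ ∈ D := by
  obtain ⟨g, hg, h⟩ := far hi h1 h0 hD hb (ρ c j) (ρ c k) (pos h0 c j0) (lt1 h1 c k1)
  obtain ⟨w, w1, w2⟩ := h1.cut (g⁻¹ * c) k (ρ c j) (pos h0 c j0)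
    (lt1 h1 c (jk.trans_lt k1)).le hc
    ((ρ g).lt_iff_lt.1 (by rwa [mul_app, inv_app]))
  have key : ∀ (n : ℕ) (x : ℝ), j ≤ x → x ≤ k →
      ρ ((g * w) ^ (n + 1)) x = ρ (g ^ n * c) x ∧ ρ c j ≤ ρ (g ^ n * c) x := by
    intro n x x1 x2
    induction n with
    | zero =>
      rw [zero_add, pow_one, pow_zero, one_mul, mul_app, w2 x x2, mul_app, inv_app]
      exact ⟨rfl, (ρ c).monotone x1⟩
    | succ n ih =>
      rw [pow_succ', mul_app, ih.1, mul_app, w1 _ ih.2, pow_succ' g, mul_assoc, mul_app g]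
      exact ⟨rfl, (((ρ c).monotone jk).trans h.le).trans ((ρ g).monotone ih.2)⟩
  obtain ⟨n, hn, h2⟩ := hD a ha (g * w)
  obtain ⟨n, rfl⟩ : ∃ m, n = m + 1 := ⟨n - 1, by omega⟩
  rw [agree hi hf fun x x1 x2 => (key n x x1 x2).1] at h2
  convert mul_mem (mul_mem (inv_mem (pow_mem hg n)) h2) (pow_mem hg n) using 1
  group

theorem normalN : (D ⊓ Cs ρ).Normal := by
  refine ⟨fun a ⟨ha, j, k, j0, jk, k1, hf⟩ c => ⟨?_, _, _, pos h0 c j0, (ρ c).monotone jk,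
    lt1 h1 c k1, conj_fix hf c⟩⟩
  obtain ⟨g, hg, h⟩ := far hi h1 h0 hD hb (ρ c j) k (pos h0 c j0) k1
  have := right hi h1 h0 hD hb (mul_mem (mul_mem (inv_mem hg) ha) (inv_mem (inv_mem hg)))
    (pos h0 g⁻¹ j0) ((ρ _).monotone jk) (lt1 h1 g⁻¹ k1) (conj_fix hf g⁻¹) (c * g)
    (by rw [mul_app, inv_app]; exact (ρ g).lt_iff_lt.1 (by rwa [inv_app]))
  change c * a * c⁻¹ ∈ D
  convert this using 1
  group

theorem neN : D ⊓ Cs ρ ≠ ⊥ := by
  obtain ⟨g, hg, y, y0, y1, y2⟩ := up hi h1 h0 hb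
  obtain ⟨s, r, r1, s1, s2, -, s3⟩ := h1.bump' y ((y + ρ g y) / 2) y0.le (by linarith) (by linarith)
  obtain ⟨j, j1, j2⟩ := exists_between (max_lt r1 (show y < (y + ρ g y) / 2 by linarith))
  obtain ⟨η, hη, s4⟩ := s3 j j (lt_of_le_of_lt (le_max_left _ _) j1) (by linarith)
  have s5 := s4 j le_rfl le_rfl
  obtain ⟨w, w1, w2⟩ := h1.cut s j ((y + ρ g y) / 2) (by linarith) (by linarith) j2 (by linarith)
  have hw : w ∈ Fix ρ (Iic y ∪ Ici ((y + ρ g y) / 2)) := by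
    rintro x (hx | hx)
    · rw [w2 x (le_trans hx (le_of_max_le_right j1.le)), s1 x hx]
    · exact w1 x hx
  have hw' : w ∈ Cs ρ := ⟨_, _, y0, by linarith, by linarith, hw⟩
  obtain ⟨n, hn, h⟩ := hD g hg w
  obtain ⟨n, rfl⟩ : ∃ m, n = m + 1 := ⟨n - 1, by omega⟩
  have h2 := conj_fix (inv_mem (pow_mem hw (n + 1))) g
  have e : w ^ (n + 1) * g * (w ^ (n + 1))⁻¹ * g⁻¹ = w ^ (n + 1) * (g * (w ^ (n + 1))⁻¹ * g⁻¹) := by
    group
  refine Subgroup.ne_bot_iff_exists_ne_one.2 ⟨⟨_, D.mul_mem h (D.inv_mem hg), e ▸ mul_mem (pow_mem hw' _)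
    ⟨_, _, pos h0 g y0, (ρ g).monotone (by linarith), lt1 h1 g (by linarith), h2⟩⟩, fun h3 => ?_⟩
  have h4 : w ^ (n + 1) * (g * (w ^ (n + 1))⁻¹ * g⁻¹) = 1 := e ▸ congrArg Subtype.val h3
  have h5 := congrArg (fun z => ρ z j) h4
  simp only [map_one, RelIso.one_apply] at h5
  rw [mul_app, h2 j (Or.inl (show j ≤ ρ g y by linarith))] at h5
  have h6 : ∀ m : ℕ, ρ (w ^ (m + 1)) j < j := by
    intro m
    induction m with
    | zero => rw [zero_add, pow_one, w2 j le_rfl]; linarith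
    | succ m ih =>
      rw [pow_succ', mul_app, w2 _ ih.le]
      exact (s2 _).trans_lt ih
  exact (h6 n).ne h5

theorem dc {γ δ : G} (hγ : γ ∈ Cs ρ) (hδ : δ ∈ Cs ρ) : γ * δ * γ⁻¹ * δ⁻¹ ∈ D ⊓ Cs ρ := by
  have hN := normalN hi h1 h0 hD hb
  obtain ⟨a, ha, y, y0, y1, y2⟩ := up hi h1 h0 (neN hi h1 h0 hD hb)
  have small : ∀ γ ∈ Fix ρ (Iic y ∪ Ici (ρ a y)), ∀ δ ∈ Fix ρ (Iic y ∪ Ici (ρ a y)),
      γ * δ * γ⁻¹ * δ⁻¹ ∈ D ⊓ Cs ρ := by
    intro γ hγ δ hδ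
    have c := comm hi (a := γ) (b := a * δ⁻¹ * a⁻¹) fun x => (le_total x (ρ a y)).elim
      (fun h => Or.inr (conj_fix (inv_mem hδ) a x (Or.inl h))) fun h => Or.inl (hγ x (Or.inr h))
    have m := mul_mem (hN.conj_mem a ha δ) (inv_mem ha)
    convert mul_mem (hN.conj_mem _ m γ) (inv_mem m) using 1
    calc γ * δ * γ⁻¹ * δ⁻¹ = γ * δ * (γ⁻¹ * (a * δ⁻¹ * a⁻¹)) * (δ * a * δ⁻¹ * a⁻¹)⁻¹ := by group
      _ = _ := by rw [c.inv_left.eq]; group
  obtain ⟨p, q, p0, -, q1, hγ⟩ := hγ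
  obtain ⟨p', q', p0', -, q1', hδ⟩ := hδ
  obtain ⟨g, -, -, g3⟩ := h0.pushL 1 y (min p p') le_rfl (by linarith) y0.le (lt_min p0 p0')
  obtain ⟨f, f1, -, f3⟩ := h1.push y (ρ a y) (ρ g (max q q')) y0.le y1 y2.le
    (lt1 h1 g (max_lt q1 q1'))
  have sm : ∀ (z : G) (u v : ℝ), min p p' ≤ u → v ≤ max q q' → z ∈ Fix ρ (Iic u ∪ Ici v) →
      f * g * z * (f * g)⁻¹ ∈ Fix ρ (Iic y ∪ Ici (ρ a y)) := by
    intro z u v hu hv hz x hx
    refine conj_fix hz (f * g) x (hx.imp (fun h => ?_) fun h => ?_)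
    · rw [mem_Iic, mul_app]
      exact le_trans h ((f1 y self_mem_Iic).ge.trans ((ρ f).monotone (g3.le.trans ((ρ g).monotone hu))))
    · rw [mem_Ici, mul_app]
      exact (((ρ f).monotone ((ρ g).monotone hv)).trans f3.le).trans h
  convert hN.conj_mem _ (small _ (sm γ p q (min_le_left _ _) (le_max_left _ _) hγ) _
    (sm δ p' q' (min_le_right _ _) (le_max_right _ _) hδ)) (f * g)⁻¹ using 1
  group

theorem d1 (f : G) {m : G} (hm : m ∈ Cs ρ) : f * m * f⁻¹ * m⁻¹ ∈ D ⊓ Cs ρ := by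
  obtain ⟨j, k, j0, jk, k1, hf⟩ := id hm
  obtain ⟨l, l1, l2⟩ := exists_between (max_lt k1 (lt1 h1 f k1))
  have l3 := lt_of_le_of_lt (le_max_left _ _) l1
  obtain ⟨w, w1, w2⟩ := h1.cut f k l (by linarith) l2.le l3 (lt_of_le_of_lt (le_max_right _ _) l1)
  obtain ⟨i, i1, i2⟩ := exists_between (lt_min j0 (pos h0 w j0))
  have i3 := lt_of_lt_of_le i2 (min_le_left _ _)
  obtain ⟨v, v1, v2⟩ := h0.cutL w j i (by linarith) i1.le i3 (lt_of_lt_of_le i2 (min_le_right _ _))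
  rw [agree hi hf (v := v) fun x x1 x2 => by rw [v2 x x1, w2 x x2]]
  refine dc hi h1 h0 hD hb ⟨i, l, i1, by linarith, l2, ?_⟩ hm
  rintro x (hx | hx)
  · exact v1 x hx
  · rw [v2 x (by linarith [mem_Ici.1 hx]), w1 x hx]

theorem normal : D.Normal := by
  have hN := normalN hi h1 h0 hD hb
  obtain ⟨s, -, -, s1, -, s2, -⟩ := h1.bump' (1 / 2) 1 (by norm_num) (by norm_num) le_rfl
  obtain ⟨t, -, -, t1, -, t2, -⟩ := h0.bump' (1 / 2) 1 (by norm_num) (by norm_num) le_rfl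
  replace t1 : t ∈ Fix ρ (Ici (1 / 2)) :=
    fix_flip t1 fun x hx => show 1 - x ≤ 1 / 2 by linarith [mem_Ici.1 hx]
  have hst : Commute s t := comm hi fun x => (le_total x (1 / 2)).imp (s1 x) (t1 x)
  have dec : ∀ g : G, ∃ (i j : ℤ), ∃ m ∈ Cs ρ, g = s ^ i * (t ^ j * m) := by
    intro g
    obtain ⟨i, b, b1, hb⟩ := h1.er s2 g
    obtain ⟨j, a, a1, ha⟩ := h0.er t2 (s ^ i * g)
    refine ⟨-i, -j, t ^ j * (s ^ i * g), ⟨min (1 - a) (1 / 2), max b (1 / 2),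
      lt_min (by linarith) (by norm_num), min_le_of_right_le (le_max_right _ _),
      max_lt b1 (by norm_num), ?_⟩, by group⟩
    rintro x (hx | hx)
    · exact fix_flip (T := Iic (1 - a)) ha (fun x hx => show a ≤ 1 - x by linarith [mem_Iic.1 hx]) x
        (Iic_subset_Iic.2 (min_le_left _ _) hx)
    · rw [mul_app, hb x (Ici_subset_Ici.2 (le_max_left _ _) hx),
        zpow_mem t1 j x (Ici_subset_Ici.2 (le_max_right _ _) hx)]
  set π := QuotientGroup.mk' (D ⊓ Cs ρ)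
  have c1 : ∀ f, ∀ m ∈ Cs ρ, Commute (π f) (π m) := fun f m hm => by
    rw [← commutatorElement_eq_one_iff_commute, ← map_commutatorElement]
    exact (QuotientGroup.eq_one_iff _).2 (d1 hi h1 h0 hD hb f hm)
  have c2 : ∀ z, Commute z s → Commute z t → ∀ g, Commute (π z) (π g) := fun z z1 z2 g => by
    obtain ⟨i, j, m, hm, rfl⟩ := dec g
    rw [map_mul, map_mul]
    exact ((z1.zpow_right i).map π).mul_right (((z2.zpow_right j).map π).mul_right (c1 z m hm))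
  have c3 : ∀ f g, Commute (π f) (π g) := fun f g => by
    obtain ⟨i, j, m, hm, rfl⟩ := dec g
    rw [map_mul, map_mul, map_zpow, map_zpow]
    exact ((c2 s rfl hst f).symm.zpow_right i).mul_right
      (((c2 t hst.symm rfl f).symm.zpow_right j).mul_right (c1 f m hm))
  refine ⟨fun g hg c => ?_⟩
  have := c3 c g
  rw [← commutatorElement_eq_one_iff_commute, ← map_commutatorElement] at this
  simpa [commutatorElement_def] using mul_mem ((QuotientGroup.eq_one_iff _).1 this).1 hg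

end

end Pool.Agent.H.MP_bd6a20_al
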